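import Mathlib
import Pool.Agent.TH35.QFinal

/-!
# The center of the positive part of the quantum affine algebra of type `A_1^{(1)}`

`K` is an algebraically closed field (of any characteristic), `q` is a nonzero element of `K`
which is not a root of unity. `UPlus q` is the unital associative `K`-algebra presented by the two
generators `A`, `Astar` and the two cubic q-Serre relations. We prove that its center consists of
the scalars only: it is generated, as a `K`-algebra, by the empty set.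
-/

namespace Pool.Agent.Results.MP_cafee0_al.CenterTrivial

universe u

variable {K : Type u} [Field K]

/-- The quantum integer `[3]_q = (q^3 - q^{-3}) / (q - q^{-1})`. -/
noncomputable def qThree (q : K) : K := (q ^ 3 - q⁻¹ ^ 3) / (q - q⁻¹)

/-- The free generator `A`. -/
noncomputable def A : FreeAlgebra K (Fin 2) := FreeAlgebra.ι K 0

/-- The free generator `A^*` (only a name). -/
noncomputable def Astar : FreeAlgebra K (Fin 2) := FreeAlgebra.ι K 1

/-- The two q-Serre relations. -/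
inductive SerreRel (q : K) : FreeAlgebra K (Fin 2) → FreeAlgebra K (Fin 2) → Prop
  | first : SerreRel q
      (A ^ 3 * Astar - qThree q • (A ^ 2 * Astar * A) + qThree q • (A * Astar * A ^ 2)
        - Astar * A ^ 3) 0
  | second : SerreRel q
      (Astar ^ 3 * A - qThree q • (Astar ^ 2 * A * Astar) + qThree q • (Astar * A * Astar ^ 2)
        - A * Astar ^ 3) 0

/-- The algebra `U^+`: two generators and the q-Serre relations. -/
abbrev UPlus (q : K) := RingQuot (SerreRel q)

theorem qThree_eq (q : K) (hq : q ≠ 0) (hroot : ∀ n : ℕ, 0 < n → q ^ n ≠ 1) :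
    qThree q = q ^ 2 + 1 + (q ^ 2)⁻¹ := by
  have hk : q - q⁻¹ ≠ 0 := by
    intro h
    have h2 : q * (q - q⁻¹) = q ^ 2 - 1 := by field_simp
    rw [h, mul_zero] at h2
    exact hroot 2 (by norm_num) (sub_eq_zero.mp h2.symm)
  unfold qThree
  rw [div_eq_iff hk]
  field_simp
  ring

theorem rel_eq (q : K) (hq : q ≠ 0) (hroot : ∀ n : ℕ, 0 < n → q ^ n ≠ 1) :
    SerreRel q = TH35.QAlg.Rel (q ^ 2 + 1 + (q ^ 2)⁻¹) := by
  have h := qThree_eq q hq hroot
  have e1 : (A ^ 3 * Astar - qThree q • (A ^ 2 * Astar * A) + qThree q • (A * Astar * A ^ 2)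
        - Astar * A ^ 3 : FreeAlgebra K (Fin 2))
      = TH35.QAlg.fx * TH35.QAlg.fx * TH35.QAlg.fx * TH35.QAlg.fy
        - (q ^ 2 + 1 + (q ^ 2)⁻¹) • (TH35.QAlg.fx * TH35.QAlg.fx * TH35.QAlg.fy * TH35.QAlg.fx)
        + (q ^ 2 + 1 + (q ^ 2)⁻¹) • (TH35.QAlg.fx * TH35.QAlg.fy * TH35.QAlg.fx * TH35.QAlg.fx)
        - TH35.QAlg.fy * TH35.QAlg.fx * TH35.QAlg.fx * TH35.QAlg.fx := by
    rw [h]
    unfold A Astar TH35.QAlg.fx TH35.QAlg.fy
    simp only [pow_succ, pow_zero, one_mul, mul_assoc]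
  have e2 : (Astar ^ 3 * A - qThree q • (Astar ^ 2 * A * Astar)
        + qThree q • (Astar * A * Astar ^ 2) - A * Astar ^ 3 : FreeAlgebra K (Fin 2))
      = TH35.QAlg.fy * TH35.QAlg.fy * TH35.QAlg.fy * TH35.QAlg.fx
        - (q ^ 2 + 1 + (q ^ 2)⁻¹) • (TH35.QAlg.fy * TH35.QAlg.fy * TH35.QAlg.fx * TH35.QAlg.fy)
        + (q ^ 2 + 1 + (q ^ 2)⁻¹) • (TH35.QAlg.fy * TH35.QAlg.fx * TH35.QAlg.fy * TH35.QAlg.fy)
        - TH35.QAlg.fx * TH35.QAlg.fy * TH35.QAlg.fy * TH35.QAlg.fy := by
    rw [h]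
    unfold A Astar TH35.QAlg.fx TH35.QAlg.fy
    simp only [pow_succ, pow_zero, one_mul, mul_assoc]
  funext a b
  apply propext
  constructor
  · intro hab
    cases hab with
    | first => rw [e1]; exact TH35.QAlg.Rel.r1
    | second => rw [e2]; exact TH35.QAlg.Rel.r2
  · intro hab
    cases hab with
    | r1 => rw [← e1]; exact SerreRel.first
    | r2 => rw [← e2]; exact SerreRel.second

/-- The center of `U^+` is `K 1`, and `K → U^+` is injective. -/
theorem result (K : Type u) [Field K] [IsAlgClosed K] (q : K) (hq : q ≠ 0)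
    (hroot : ∀ n : ℕ, 0 < n → q ^ n ≠ 1) :
    Subalgebra.center K (UPlus q) = ⊥ ∧ Function.Injective (algebraMap K (UPlus q)) := by
  have hp : q ^ 2 ≠ 0 := pow_ne_zero _ hq
  have hr : ∀ n : ℕ, 0 < n → (q ^ 2) ^ n ≠ 1 := by
    intro n hn
    rw [← pow_mul]
    exact hroot (2 * n) (by omega)
  have key : ∀ r : FreeAlgebra K (Fin 2) → FreeAlgebra K (Fin 2) → Prop,
      r = TH35.QAlg.Rel (q ^ 2 + 1 + (q ^ 2)⁻¹) →
      Subalgebra.center K (RingQuot r) = ⊥ ∧ Function.Injective (algebraMap K (RingQuot r)) := by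
    rintro _ rfl
    exact ⟨TH35.QAlg.center_V (q ^ 2) hp hr, TH35.QAlg.inj_V (q ^ 2)⟩
  exact key _ (rel_eq q hq hroot)

end Pool.Agent.Results.MP_cafee0_al.CenterTrivial
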